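import Mathlib
import Pool.Agent.H664.QK.Stm

set_option autoImplicit false

namespace Pool.Agent.H120.QK

open Pool.Agent.H664.QK

theorem lattice {V : Type*} [AddCommGroup V] [Module ℚ V] (N : ℕ) (u : Fin (N+1) → V) (h0 : u 0 ≠ 0) :
  ∃ (p : ℕ) (a : V) (w : Fin p → V) (c : Fin (N+1) → ℤ) (C : Fin (N+1) → Fin p → ℤ), p ≤ N ∧
    (∀ (k : ℤ) (m : Fin p → ℤ), k • a + ∑ j, m j • w j = 0 → k = 0 ∧ m = 0) ∧
    (∀ i, u i = c i • a + ∑ j, C i j • w j) ∧ C 0 = 0 ∧ c 0 ≠ 0 := by
  classical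
  let S : Submodule ℚ V := Submodule.span ℚ {u 0}
  let φ : V →ₗ[ℤ] (V ⧸ S) := (S.mkQ).restrictScalars ℤ
  have hφ0 : φ (u 0) = 0 := by
    change S.mkQ (u 0) = 0
    rw [Submodule.mkQ_apply, Submodule.Quotient.mk_eq_zero]
    exact Submodule.mem_span_singleton_self _
  let A : Submodule ℤ V := Submodule.span ℤ (Set.range u)
  let B : Submodule ℤ (V ⧸ S) := A.map φ
  have huA : ∀ i, u i ∈ A := fun i => Submodule.subset_span ⟨i, rfl⟩
  have hBspan : B = Submodule.span ℤ (Set.range (fun i : Fin N => φ (u i.succ))) := by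
    apply le_antisymm
    · rw [show B = A.map φ from rfl, Submodule.map_span_le]
      rintro _ ⟨i, rfl⟩
      refine Fin.cases ?_ (fun j => ?_) i
      · rw [hφ0]; exact Submodule.zero_mem _
      · exact Submodule.subset_span ⟨j, rfl⟩
    · rw [Submodule.span_le]
      rintro _ ⟨i, rfl⟩
      exact Submodule.mem_map_of_mem (huA _)
  have tfV : IsAddTorsionFree V := IsAddTorsionFree.of_module_rat V
  have tfQ : IsAddTorsionFree (V ⧸ S) := IsAddTorsionFree.of_module_rat _
  have hfA : Module.Finite ℤ A := Module.Finite.span_of_finite ℤ (Set.finite_range u)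
  have hfB : Module.Finite ℤ B := Module.Finite.map A φ
  have frB : Module.Free ℤ B := inferInstance
  have hp : Module.finrank ℤ B ≤ N := by
    have h1 := finrank_range_le_card (R := ℤ) (fun i : Fin N => φ (u i.succ))
    rw [Set.finrank, ← hBspan, Fintype.card_fin] at h1
    exact h1
  let bB : Module.Basis (Fin (Module.finrank ℤ B)) ℤ B := Module.finBasis ℤ B
  -- lifts
  have hlift : ∀ j, ∃ w : V, w ∈ A ∧ φ w = (bB j : V ⧸ S) := fun j => by
    obtain ⟨w, hw, h⟩ := (bB j).2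
    exact ⟨w, hw, h⟩
  choose w hwA hw using hlift
  -- kernel
  let A1 : Submodule ℤ V := A ⊓ LinearMap.ker φ
  have hA1A : A1 ≤ A := inf_le_left
  have hfA1 : Module.Finite ℤ A1 := by
    have : IsNoetherian ℤ A := isNoetherian_of_isNoetherianRing_of_finite ℤ A
    exact Module.Finite.iff_fg.2 (isNoetherian_submodule.1 this A1 hA1A)
  have frA1 : Module.Free ℤ A1 := inferInstance
  let b1 : Module.Basis (Fin (Module.finrank ℤ A1)) ℤ A1 := Module.finBasis ℤ A1
  have hA1S : ∀ x ∈ A1, ∃ q : ℚ, x = q • u 0 := by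
    rintro x ⟨-, hx⟩
    have h1 : S.mkQ x = 0 := hx
    rw [Submodule.mkQ_apply, Submodule.Quotient.mk_eq_zero, Submodule.mem_span_singleton] at h1
    obtain ⟨q, hq⟩ := h1
    exact ⟨q, hq.symm⟩
  -- two elements of `A1` are dependent
  have hdep : ∀ x ∈ A1, ∀ y ∈ A1, y ≠ 0 → ∃ k l : ℤ, k ≠ 0 ∧ k • x + l • y = 0 := by
    intro x hx y hy hy0
    obtain ⟨q, rfl⟩ := hA1S x hx
    obtain ⟨r, rfl⟩ := hA1S y hy
    have hr : r ≠ 0 := fun h => hy0 (by rw [h, zero_smul])
    refine ⟨r.num * q.den, -(q.num * r.den), ?_, ?_⟩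
    · exact mul_ne_zero (Rat.num_ne_zero.2 hr) (by exact_mod_cast q.den_nz)
    · have e1 : ((r.num * q.den : ℤ) • (q • u 0)) = ((r.num * q.den : ℤ) : ℚ) • (q • u 0) :=
        (Int.cast_smul_eq_zsmul ℚ _ _).symm
      have e2 : ((-(q.num * r.den) : ℤ) • (r • u 0)) = ((-(q.num * r.den) : ℤ) : ℚ) • (r • u 0) :=
        (Int.cast_smul_eq_zsmul ℚ _ _).symm
      rw [e1, e2, smul_smul, smul_smul, ← add_smul]
      have h1 : (q.den : ℚ) * q = q.num := Rat.den_mul_eq_num q
      have h2 : (r.den : ℚ) * r = r.num := Rat.den_mul_eq_num r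
      have : (((r.num * q.den : ℤ) : ℚ) * q + ((-(q.num * r.den) : ℤ) : ℚ) * r) = 0 := by
        push_cast
        linear_combination (r.num : ℚ) * h1 - (q.num : ℚ) * h2
      rw [this, zero_smul]
  have hu0A1 : u 0 ∈ A1 := ⟨huA 0, hφ0⟩
  -- the rank of `A1` is one
  have hr0 : 0 < Module.finrank ℤ A1 := by
    rw [Module.finrank_pos_iff_exists_ne_zero]
    exact ⟨⟨u 0, hu0A1⟩, fun h => h0 (congrArg Subtype.val h)⟩
  have hli : LinearIndependent ℤ (fun i => (b1 i : V)) :=
    b1.linearIndependent.map' A1.subtype (Submodule.ker_subtype _)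
  have hr1 : ∀ i : Fin (Module.finrank ℤ A1), i = ⟨0, hr0⟩ := by
    intro i
    by_contra hi
    obtain ⟨k, l, hk, hkl⟩ := hdep _ (b1 i).2 _ (b1 ⟨0, hr0⟩).2
      (fun h => b1.ne_zero ⟨0, hr0⟩ (Subtype.ext h))
    have h3 : k • b1 i + l • b1 ⟨0, hr0⟩ = 0 := Subtype.ext hkl
    have h4 := congrArg (fun z => b1.repr z i) h3
    simp only [map_add, map_smul, Module.Basis.repr_self, Finsupp.coe_add, Pi.add_apply,
      Finsupp.smul_apply, Finsupp.single_eq_same, map_zero, Finsupp.coe_zero, Pi.zero_apply,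
      Finsupp.single_eq_of_ne hi, smul_eq_mul, mul_one] at h4
    exact hk (by simpa using h4)
  let a : V := b1 ⟨0, hr0⟩
  have haA1 : a ∈ A1 := (b1 ⟨0, hr0⟩).2
  have ha0 : a ≠ 0 := fun h => b1.ne_zero ⟨0, hr0⟩ (Subtype.ext h)
  have hgen : ∀ x ∈ A1, ∃ c : ℤ, x = c • a := by
    intro x hx
    refine ⟨b1.repr ⟨x, hx⟩ ⟨0, hr0⟩, ?_⟩
    have h := b1.sum_repr ⟨x, hx⟩
    have h2 := congrArg (fun z : A1 => (z : V)) h
    simp only at h2
    refine h2.symm.trans ?_
    rw [Submodule.coe_sum, Finset.sum_eq_single ⟨0, hr0⟩]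
    · rw [Submodule.coe_smul]
    · intro j _ hj
      exact absurd (hr1 j) hj
    · intro h; exact absurd (Finset.mem_univ _) h
  have hφA : ∀ x ∈ A, φ x ∈ B := fun x hx => Submodule.mem_map_of_mem hx
  have hdec : ∀ i, ∃ c : ℤ, u i - ∑ j, (bB.repr ⟨φ (u i), hφA _ (huA i)⟩ j) • w j = c • a := by
    intro i
    apply hgen
    refine ⟨?_, ?_⟩
    · exact A.sub_mem (huA i) (A.sum_mem fun j _ => A.smul_mem _ (hwA j))
    · change φ _ = 0
      rw [map_sub, map_sum, sub_eq_zero]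
      have h := congrArg (fun z : B => (z : V ⧸ S)) (bB.sum_repr ⟨φ (u i), hφA _ (huA i)⟩)
      simp only at h
      rw [Submodule.coe_sum] at h
      refine h.symm.trans ?_
      refine Finset.sum_congr rfl fun j _ => ?_
      rw [map_smul, hw, Submodule.coe_smul]
  choose c hc using hdec
  refine ⟨Module.finrank ℤ B, a, w, c, fun i j => bB.repr ⟨φ (u i), hφA _ (huA i)⟩ j, hp,
    ?_, ?_, ?_, ?_⟩
  · intro k m h
    have hφa : φ a = 0 := haA1.2
    have h1 := congrArg φ h
    rw [map_add, map_smul, hφa, smul_zero, zero_add, map_sum, map_zero] at h1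
    have h2 : ∑ j, m j • bB j = 0 := by
      apply Subtype.ext
      rw [Submodule.coe_sum]
      simp only [map_smul, hw] at h1
      simpa using h1
    have hm : m = 0 := by
      funext j
      exact Fintype.linearIndependent_iff.1 bB.linearIndependent m h2 j
    refine ⟨?_, hm⟩
    rw [hm] at h
    simp only [Pi.zero_apply, zero_smul, Finset.sum_const_zero, add_zero] at h
    exact (smul_eq_zero.1 h).resolve_right ha0
  · intro i
    rw [← hc i]; abel
  · funext j
    have : (⟨φ (u 0), hφA _ (huA 0)⟩ : B) = 0 := Subtype.ext hφ0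
    simp only [this, map_zero, Finsupp.coe_zero, Pi.zero_apply]
  · intro hc0
    apply h0
    have := hc 0
    have h1 : (⟨φ (u 0), hφA _ (huA 0)⟩ : B) = 0 := Subtype.ext hφ0
    rw [hc0, h1] at this
    simpa using this

theorem latb : S_latb := by
  classical
  intro K N u hu0
  -- `K` as a `ℚ`-subspace of `ℂ`
  let KS : Submodule ℚ ℂ :=
    { carrier := K
      add_mem' := fun h1 h2 => K.add_mem h1 h2
      zero_mem' := K.zero_mem
      smul_mem' := fun q x hx => by
        have : q • x = (q : ℂ) * x := by rw [Rat.smul_def]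
        rw [this]
        exact K.mul_mem (SubfieldClass.ratCast_mem K q) hx }
  have hKS : ∀ x : ℂ, KS.mkQ x = 0 ↔ x ∈ K := fun x => by
    rw [Submodule.mkQ_apply, Submodule.Quotient.mk_eq_zero]
    exact Iff.rfl
  obtain ⟨p, a', w', c, C, hp, hli, hdec, hC, hc⟩ := lattice N (fun i => KS.mkQ (u i))
    (fun h => hu0 ((hKS _).1 h))
  obtain ⟨a, rfl⟩ := KS.mkQ_surjective a'
  have hw : ∀ j, ∃ w : ℂ, KS.mkQ w = w' j := fun j => KS.mkQ_surjective _
  choose w hw using hw
  have key : ∀ (k : ℤ) (m : Fin p → ℤ), KS.mkQ ((k : ℂ) * a + ∑ j, (m j : ℂ) * w j) =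
      k • KS.mkQ a + ∑ j, m j • w' j := by
    intro k m
    have e : ∀ (k : ℤ) (z : ℂ), (k : ℂ) * z = k • z := fun k z => by rw [zsmul_eq_mul]
    simp only [e, map_add, map_sum, map_zsmul, hw]
  refine ⟨p, a, w, fun i => u i - c i * a - ∑ j, (C i j : ℂ) * w j, c, C, hp, ?_, ?_, ?_, hC, hc⟩
  · intro m hm
    have hs : (∑ j, (m j : ℂ) * (Fin.append (fun _ : Fin 1 => a) w) j) =
        (m (Fin.castAdd p 0) : ℂ) * a + ∑ j, (m (Fin.natAdd 1 j) : ℂ) * w j := by
      rw [Fin.sum_univ_add]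
      simp only [Fin.append_left, Fin.append_right, Finset.univ_unique, Finset.sum_singleton]
      rfl
    rw [hs, ← hKS, key] at hm
    obtain ⟨h1, h2⟩ := hli _ _ hm
    funext j
    refine Fin.addCases (fun i => ?_) (fun i => ?_) j
    · rw [Subsingleton.elim i 0]; exact h1
    · exact congrFun h2 i
  · intro i
    rw [← hKS]
    have : u i - c i * a - ∑ j, (C i j : ℂ) * w j = u i - (c i * a + ∑ j, (C i j : ℂ) * w j) := by
      ring
    simp only [this]
    rw [map_sub, key, hdec i, sub_self]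
  · intro i
    ring

end Pool.Agent.H120.QK
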